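import Pool.Agent.V5helper45.RB.Law

/-!
# The digits of algebraic numbers in a random base

Every irrational algebraic number `y` is conjectured to be normal in every base `r`, that is, the
sequence `y r ^ n` should be equidistributed modulo one. Here every algebraic irrational number is
treated, and the base `r` is random: `r = g t`, `g` any nonconstant integral polynomial (for example
`g = X`) and `t` uniform in any interval of `H ≥ exp (N ^ (5 + η))` consecutive integers. The first
`N` terms of the sequences `(y i r ^ n)`, `i < m`, `1, y 0, …, y (m - 1)` linearly independent over the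
rational numbers, then behave like `m N` independent uniform variables: at the resolution `1 / L`,
`L ≤ exp (N ^ ρ)`, the law of their fractional parts is within `exp (- N ^ ρ)` in total variation of
the uniform law on `L ^ (m N)` points, where `ρ < 1 + η`, for all numbers `y i` of bounded degree and of
height at most `exp (N ^ ρ)`.

Proof. The law is compared with the uniform law through products of nonnegative trigonometric weights
of Fejér type, of degree `exp (N ^ ρ')` in each of the `m N` variables. All the nonzero frequencies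
lead to Weyl sums over `t` of polynomials of degree up to a multiple of `N`, whose leading
coefficients are linear forms in the `y i`; by the inequality of Liouville they are not too well
approximable, and Vinogradov's mean value theorem, with an explicit dependence on the degree, gains
a factor `exp (- N ^ (2 + η'))`, more than the number of frequencies.
-/

set_option autoImplicit false

namespace Pool.Agent.Results.MP_f2f914_nt.DigitsInRandomBases

open Polynomial

/-- `y` is a root of a nonzero integral polynomial of degree at most `d` all of whose coefficients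
are at most `h` in absolute value -/
def BoundedAlgebraic (d : ℕ) (h : ℝ) (y : ℝ) : Prop :=
  ∃ P : ℤ[X], P ≠ 0 ∧ P.natDegree ≤ d ∧ (∀ k, |(P.coeff k : ℝ)| ≤ h) ∧ aeval y P = 0

/-- Let `g` be a nonconstant integral polynomial, `η > 0` and `0 < ρ < 1 + η`. For all `N ≥ N₀`, all
`H ≥ exp (N ^ (5 + η))`, all integers `T`, all `1 ≤ L ≤ exp (N ^ ρ)` and all real algebraic numbers
`y 0, …, y (m - 1)` of degree at most `d` and height at most `exp (N ^ ρ)` for which `1, y 0, …,
y (m - 1)` are linearly independent over the rational numbers: for every set `E` of arrays with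
entries in `{0, …, L - 1}` the number of the `t` with `T < t ≤ T + H` for which the array of the
numbers `⌊L {y i (g t) ^ n}⌋`, `i < m`, `1 ≤ n ≤ N`, lies in `E` is `H (#E / L ^ (m N) + θ)` with
`|θ| ≤ exp (- N ^ ρ)`. -/
theorem result (d m : ℕ) (g : ℤ[X]) (hg : 1 ≤ g.natDegree) (ρ η : ℝ) (hρ : 0 < ρ) (hη : 0 < η)
    (hρη : ρ < 1 + η) :
    ∃ N₀ : ℕ, ∀ N : ℕ, N₀ ≤ N → ∀ H : ℕ, Real.exp ((N : ℝ) ^ (5 + η)) ≤ H → ∀ T : ℤ, ∀ L : ℕ,
      1 ≤ L → (L : ℝ) ≤ Real.exp ((N : ℝ) ^ ρ) →
      ∀ y : Fin m → ℝ, (∀ i, BoundedAlgebraic d (Real.exp ((N : ℝ) ^ ρ)) (y i)) →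
      LinearIndependent ℚ (Fin.cons 1 y : Fin (m + 1) → ℝ) →
      ∀ E : Finset (Fin m → Fin N → Fin L),
      |(({t : ℤ | T < t ∧ t ≤ T + H ∧ ∃ a ∈ E, ∀ (i : Fin m) (n : Fin N),
          ⌊(L : ℝ) * Int.fract (y i * ((g.eval t : ℤ) : ℝ) ^ ((n : ℕ) + 1))⌋₊ = (a i n : ℕ)}.ncard : ℕ) : ℝ) -
        H * (E.card / (L : ℝ) ^ (m * N))| ≤ H * Real.exp (-(N : ℝ) ^ ρ) := by
  classical
  obtain ⟨N₀, hN₀⟩ := Pool.Agent.V5helper45.RB.law d m hg hρ hη hρη
  refine ⟨N₀, fun N hN H hH T L hL hLu y hy hli E => ?_⟩
  -- the arrays as functions of pairs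
  set φ : (Fin m → Fin N → Fin L) → (Fin m × Fin N → ℕ) := fun a p => (a p.1 p.2 : ℕ) with hφ
  have hφi : Function.Injective φ := by
    intro a b hab
    funext i n
    exact Fin.ext (congrFun hab (i, n))
  have hmain := hN₀ N hN H hH T L hL hLu y hy hli (E.image φ) (by
    intro a ha p
    obtain ⟨b, _, rfl⟩ := Finset.mem_image.1 ha
    exact (b p.1 p.2).2)
  rw [Finset.card_image_of_injective _ hφi] at hmain
  convert hmain using 4
  have hset : {t : ℤ | T < t ∧ t ≤ T + H ∧ ∃ a ∈ E, ∀ (i : Fin m) (n : Fin N),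
      ⌊(L : ℝ) * Int.fract (y i * ((g.eval t : ℤ) : ℝ) ^ ((n : ℕ) + 1))⌋₊ = (a i n : ℕ)} =
      ((((Finset.range H).filter fun t : ℕ => (fun p : Fin m × Fin N => ⌊L * Int.fract (y p.1 *
        ((g.eval (T + 1 + t) : ℤ) : ℝ) ^ ((p.2 : ℕ) + 1))⌋₊) ∈ E.image φ).image
          fun i : ℕ => T + 1 + (i : ℤ) : Finset ℤ) : Set ℤ) := by
    ext t
    rw [Finset.mem_coe, Finset.mem_image]
    constructor
    · rintro ⟨h1, h2, a, ha, hat⟩
      obtain ⟨i, hi⟩ : ∃ i : ℕ, T + 1 + (i : ℤ) = t := ⟨(t - (T + 1)).toNat, by omega⟩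
      refine ⟨i, ?_, hi⟩
      rw [Finset.mem_filter, Finset.mem_range, Finset.mem_image]
      refine ⟨by omega, a, ha, ?_⟩
      funext p
      rw [hi]
      exact (hat p.1 p.2).symm
    · rintro ⟨i, hi, hit⟩
      rw [Finset.mem_filter, Finset.mem_range, Finset.mem_image] at hi
      obtain ⟨h1, a, ha, hat⟩ := hi
      refine ⟨by omega, by omega, a, ha, fun j n => ?_⟩
      have := congrFun hat (j, n)
      rw [hit] at this
      exact this.symm
  rw [hset, Set.ncard_coe_finset, Finset.card_image_of_injective _ (fun a b hab => by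
    have : T + 1 + (a : ℤ) = T + 1 + (b : ℤ) := hab
    omega)]

end Pool.Agent.Results.MP_f2f914_nt.DigitsInRandomBases
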