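import Pool.Agent.V5helper26.PM.Fin

/-!
# The digits of the multiples of an algebraic irrational number by primes

Let `x` be a real algebraic irrational number. Among the multiples `p x` with `p` prime,
`p ≤ exp(ε N)` (`ε > 0` arbitrarily small), almost all are normal up to the `N`-th digit, with the
discrepancy `N ^ (-1/2 + δ)` of a random number, simultaneously in all bases `b ≤ B`. The same holds
for `y + h(p) x` with a nonconstant integral polynomial `h`, and for such numbers jointly: for
instance the numbers `p x, p² x, …, p^k x` are jointly normal up to the `N`-th digit for almost all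
primes `p ≤ X`, for all `X ≥ exp(ε N)`. More generally, only the leading coefficients of the
polynomials and of their integral linear combinations matter: they have to be rational multiples of
`x` of small height; the lower coefficients are arbitrary real numbers.

Proof. For a fixed `s` the `2s`-th moment over `p` of the exponential sums over the digits is expanded.
The frequencies `f` of the resulting sums `∑ Λ(m) e(f P(m))` are bounded integers times
`∑ ± b^(i_j)`. By the subspace theorem (and, for very large `X`, by Liouville's theorem) the leading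
coefficient of `f P` has no good rational approximation with a small denominator, unless
`∑ ± b^(i_j) = 0`, which is rare. So we are on the minor arcs, and Vinogradov's method for real
polynomial phases saves any power of `N`. The frequencies of all integer vectors of size at most `N` are
used in an inequality of Erdős–Turán–Koksma type.
-/

set_option autoImplicit false

namespace Pool.Agent.Results.MP_f2f914_nt.PrimeMultiples

open Finset Polynomial

/-- for every `n ≤ N` and every box `[α_1, β_1) × ⋯ × [α_k, β_k)` in the unit cube the number of `i` with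
`1 ≤ i ≤ n` such that the vector of the fractional parts of `z_j b^i`, `j = 1, …, k`, lies in the box
differs from `n` times the volume of the box by at most `E` -/
def DiscrepancyUpTo (b N : ℕ) {k : ℕ} (E : ℝ) (z : Fin k → ℝ) : Prop :=
  ∀ n : ℕ, n ≤ N → ∀ α β : Fin k → ℝ, (∀ j, 0 ≤ α j ∧ α j ≤ β j ∧ β j ≤ 1) →
    |(({i : ℕ | 1 ≤ i ∧ i ≤ n ∧ ∀ j, α j ≤ Int.fract (z j * (b : ℝ) ^ i) ∧
      Int.fract (z j * (b : ℝ) ^ i) < β j}.ncard : ℕ) : ℝ) - n * ∏ j, (β j - α j)| ≤ E

/-- every linear combination of the real polynomials `P_1, …, P_k` with integers of absolute value at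
most `N`, not all zero, has a degree between `1` and `d` and a leading coefficient of the form
`(u / v) x` with integers `u ≠ 0`, `v ≥ 1` and `|u|, v ≤ exp(κ N)` -/
def Admissible (x κ : ℝ) (N d : ℕ) {k : ℕ} (P : Fin k → ℝ[X]) : Prop :=
  ∀ g : Fin k → ℤ, g ≠ 0 → (∀ j, |g j| ≤ N) →
    1 ≤ (∑ j, C (g j : ℝ) * P j).natDegree ∧ (∑ j, C (g j : ℝ) * P j).natDegree ≤ d ∧
    ∃ (u : ℤ) (v : ℕ), u ≠ 0 ∧ |(u : ℝ)| ≤ Real.exp (κ * N) ∧ 1 ≤ v ∧ (v : ℝ) ≤ Real.exp (κ * N) ∧
      (∑ j, C (g j : ℝ) * P j).leadingCoeff = u / v * x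

/-- Let `x` be a real algebraic irrational number, `B`, `d`, `k`, `A` natural numbers and `ε, δ > 0`.
(1) There are `κ > 0` and `N₀` such that for all `N ≥ N₀`, all `k`-tuples of real polynomials `P_j`
with `Admissible x κ N d P` and all `X ≥ exp(ε N)` the following holds for all but at most
`π(X) / N ^ A` of the primes `p ≤ X`: in every base `2 ≤ b ≤ B` the first `N` terms of the sequence of
vectors `(P_1(p) b^i, …, P_k(p) b^i)_{i ≥ 1}` have discrepancy at most `N ^ (1/2 + δ)` modulo one
(not normalized), and so have its first `n` terms, for all `n ≤ N`.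
(2) Let `h_1, …, h_k` be integral polynomials such that no linear combination with integral
coefficients, not all zero, is constant. For all large `N`, all real `y_1, …, y_k` and all
`X ≥ exp(ε N)` the vector `(y_1 + h_1(p) x, …, y_k + h_k(p) x)` has this property for all but at most
`π(X) / N ^ A` of the primes `p ≤ X`; and there is a prime `p ≤ exp(ε N)` such that the vector
`(h_1(p) x, …, h_k(p) x)` has it. -/
theorem result (x : ℝ) (halg : IsAlgebraic ℚ x) (hirr : Irrational x) (B d k A : ℕ) (ε δ : ℝ)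
    (hε : 0 < ε) (hδ : 0 < δ) :
    (∃ κ : ℝ, 0 < κ ∧ ∃ N₀ : ℕ, ∀ N : ℕ, N₀ ≤ N → ∀ P : Fin k → ℝ[X], Admissible x κ N d P →
      ∀ X : ℕ, Real.exp (ε * N) ≤ X →
        (({p : ℕ | p.Prime ∧ p ≤ X ∧ ¬ ∀ b : ℕ, 2 ≤ b → b ≤ B →
          DiscrepancyUpTo b N ((N : ℝ) ^ (1 / 2 + δ)) (fun j => (P j).eval (p : ℝ))}.ncard : ℕ) : ℝ) ≤
            Nat.primeCounting X / (N : ℝ) ^ A) ∧
    (∀ h : Fin k → ℤ[X], (∀ g : Fin k → ℤ, g ≠ 0 → 1 ≤ (∑ j, C (g j) * h j).natDegree) →
      ∃ N₀ : ℕ, ∀ N : ℕ, N₀ ≤ N →
        (∀ (y : Fin k → ℝ) (X : ℕ), Real.exp (ε * N) ≤ X →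
          (({p : ℕ | p.Prime ∧ p ≤ X ∧ ¬ ∀ b : ℕ, 2 ≤ b → b ≤ B →
            DiscrepancyUpTo b N ((N : ℝ) ^ (1 / 2 + δ))
              (fun j => y j + (((h j).eval (p : ℤ) : ℤ) : ℝ) * x)}.ncard : ℕ) : ℝ) ≤
              Nat.primeCounting X / (N : ℝ) ^ A) ∧
        (∃ p : ℕ, p.Prime ∧ (p : ℝ) ≤ Real.exp (ε * N) ∧ ∀ b : ℕ, 2 ≤ b → b ≤ B →
          DiscrepancyUpTo b N ((N : ℝ) ^ (1 / 2 + δ))
            (fun j => (((h j).eval (p : ℤ) : ℤ) : ℝ) * x))) := by
  classical
  have hdef : ∀ (b N : ℕ) (E : ℝ) (z : Fin k → ℝ), DiscrepancyUpTo b N E z ↔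
      Pool.Agent.V5helper26.PM.JDisc b N E z := by
    intro b N E z
    unfold DiscrepancyUpTo Pool.Agent.V5helper26.PM.JDisc
    refine forall_congr' fun n => imp_congr_right fun _ => forall_congr' fun α =>
      forall_congr' fun β => ?_
    have e1 : {i : ℕ | 1 ≤ i ∧ i ≤ n ∧ ∀ j, α j ≤ Int.fract (z j * (b : ℝ) ^ i) ∧
        Int.fract (z j * (b : ℝ) ^ i) < β j} = (((Icc 1 n).filter (fun i : ℕ =>
        ∀ j, α j ≤ Int.fract (z j * (b : ℝ) ^ i) ∧ Int.fract (z j * (b : ℝ) ^ i) < β j) : Finset ℕ) :
          Set ℕ) := by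
      ext i
      simp [and_assoc]
    rw [e1, Set.ncard_coe_finset]
    constructor
    · intro h1 h2 h3 h4
      exact h1 fun j => ⟨h2 j, h3 j, h4 j⟩
    · intro h1 h2
      exact h1 (fun j => (h2 j).1) (fun j => (h2 j).2.1) (fun j => (h2 j).2.2)
  simp_rw [hdef]
  refine ⟨?_, fun h hind => ?_⟩
  · obtain ⟨κ, hκ, N₀, hmain⟩ := Pool.Agent.V5helper26.PM.family x halg hirr B d k A ε δ hε hδ
    refine ⟨κ, hκ, max N₀ 1, fun N hN P hP X hX => ?_⟩
    have hN1 : (1 : ℝ) ≤ N := by exact_mod_cast (le_max_right _ _).trans hN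
    have h1 := (hmain N ((le_max_left _ _).trans hN) {P} (by
      rw [card_singleton, Nat.cast_one]
      exact one_le_pow₀ hN1) (by
      intro Q hQ
      rw [mem_singleton] at hQ
      rw [hQ]
      exact hP)).1 X hX
    simp only [mem_singleton, forall_eq] at h1
    exact h1
  · obtain ⟨N₁, h1⟩ := Pool.Agent.V5helper26.PM.intpoly x halg hirr B k A ε δ hε hδ h hind
    obtain ⟨N₂, h2⟩ := Pool.Agent.V5helper26.PM.intpoly x halg hirr B k 1 (ε / 2) δ (by positivity) hδ
      h hind
    refine ⟨max (max N₁ N₂) (max 2 ⌈4 / ε⌉₊), fun N hN => ⟨fun y X hX => ?_, ?_⟩⟩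
    · exact h1 N (((le_max_left _ _).trans (le_max_left _ _)).trans hN) y X hX
    · have hN2 : N₂ ≤ N := ((le_max_right _ _).trans (le_max_left _ _)).trans hN
      have hN3 : (2 : ℝ) ≤ N := by
        exact_mod_cast ((le_max_left _ _).trans (le_max_right _ _)).trans hN
      have hN4 : 4 / ε ≤ N := (Nat.le_ceil _).trans
        (Nat.cast_le.2 (((le_max_right _ _).trans (le_max_right _ _)).trans hN))
      rw [div_le_iff₀ hε] at hN4
      set X : ℕ := ⌊Real.exp (ε * N)⌋₊ with hX
      have hX1 : (X : ℝ) ≤ Real.exp (ε * N) := Nat.floor_le (Real.exp_pos _).le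
      have hX2 : Real.exp (ε / 2 * N) ≤ X := by
        have h3 := (Nat.lt_floor_add_one (Real.exp (ε * N))).le
        rw [← hX] at h3
        have h4 : Real.exp (ε * N) = Real.exp (ε / 2 * N) * Real.exp (ε / 2 * N) := by
          rw [← Real.exp_add]; congr 1; ring
        have h5 : 3 ≤ Real.exp (ε / 2 * N) := by
          have := Real.add_one_le_exp (ε / 2 * N)
          linarith
        nlinarith
      have hX3 : 3 ≤ X := by
        have h5 : 3 ≤ Real.exp (ε / 2 * N) := by
          have := Real.add_one_le_exp (ε / 2 * N)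
          linarith
        exact_mod_cast h5.trans hX2
      have hpi : 1 ≤ Nat.primeCounting X := by
        have := Nat.monotone_primeCounting (show 2 ≤ X by omega)
        have h6 : Nat.primeCounting 2 = 1 := by decide
        omega
      have h3 := h2 N hN2 0 X hX2
      by_contra hcon
      push Not at hcon
      have h4 : {p : ℕ | p.Prime ∧ p ≤ X ∧ ¬ ∀ b : ℕ, 2 ≤ b → b ≤ B →
          Pool.Agent.V5helper26.PM.JDisc b N ((N : ℝ) ^ (1 / 2 + δ))
            (fun j => (0 : Fin k → ℝ) j + (((h j).eval (p : ℤ) : ℤ) : ℝ) * x)} =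
          ((Nat.primesLE X : Finset ℕ) : Set ℕ) := by
        ext p
        rw [Set.mem_setOf_eq, mem_coe, Nat.mem_primesLE]
        constructor
        · rintro ⟨h5, h6, -⟩
          exact ⟨h6, h5⟩
        · rintro ⟨h6, h5⟩
          refine ⟨h5, h6, fun h7 => ?_⟩
          obtain ⟨b, hb1, hb2, hb3⟩ := hcon p h5 (le_trans (by exact_mod_cast h6) hX1)
          apply hb3
          have h8 := h7 b hb1 hb2
          simp only [Pi.zero_apply, zero_add] at h8
          exact h8
      rw [h4, Set.ncard_coe_finset, pow_one, le_div_iff₀ (by linarith)] at h3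
      have h5 : (Nat.primesLE X).card = Nat.primeCounting X := by
        exact Nat.primesLE_card_eq_primeCounting X
      rw [h5] at h3
      have h6 : (1 : ℝ) ≤ Nat.primeCounting X := by exact_mod_cast hpi
      nlinarith

end Pool.Agent.Results.MP_f2f914_nt.PrimeMultiples
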