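import Pool.Agent.V5helper15.RM.Pos

/-!
# The digits of the random multiples of an algebraic number: Brownian fluctuations

Let `x` be a real algebraic irrational number, `b ≥ 2`, and let `a` be a random integer: `a = P(m)` for a nonconstant polynomial
`P` with integral coefficients, where `m` is uniformly distributed in an interval of `M ≥ exp(ε N)` consecutive integers (for
example `a` itself uniformly distributed in such an interval), or `a = P(p)`, where `p` is uniformly distributed among the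
primes `p ≤ M`, `exp(ε N) ≤ M ≤ exp(N ^ B)`. So `a` may have only `ε N` digits.

We prove an invariance principle for the first `N` digits of `z = y + a x` in the base `b`, uniformly in the real number `y`, in
the interval and in `M`: for every real function `F` of `ℓ` letters the walk

  `t ↦ (∑_{i < t N} (F(z_i, …, z_{i + ℓ - 1}) - mean F)) / √N`,  `0 ≤ t ≤ 1`,

where `z_0, z_1, …` are the digits of `z` after the point, converges in distribution, for the uniform distance, to `σ_F` times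
the standard Brownian motion, as it does for independent and uniformly distributed digits (Donsker). Here `σ_F ^ 2` is the
usual variance of the sum of a function of `ℓ` consecutive independent letters; it is positive for the indicator function
of a word, that is for the number of the occurrences of a word among the first digits.

The starting result `MultiplesDiscrepancy` bounds the discrepancy of the digits of `y + a x` by `N ^ (1 / 2 + δ)` for almost all
`a`; here the fluctuations of the true order `N ^ (1 / 2)` are determined.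

From Mathlib: `IsBrownianReal W μ`: `W` is a standard Brownian motion on the probability space with the measure `μ`.
-/

set_option autoImplicit false

namespace Pool.Agent.Results.MP_f2f914_nt.RandomMultiples

open MeasureTheory ProbabilityTheory Finset Polynomial
open scoped NNReal

/-- The digit number `i` (`i = 0, 1, 2, …`) of the real number `z` after the point, in the base `b`. -/
noncomputable def digit (b : ℕ) (z : ℝ) (i : ℕ) : ℕ := (⌊(b : ℝ) ^ (i + 1) * z⌋ % (b : ℤ)).toNat

/-- The word of length `ℓ` which begins at the place `j` of the sequence `w`. -/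
def word (ℓ : ℕ) (w : ℕ → ℕ) (j : ℕ) : Fin ℓ → ℕ := fun m => w (j + m)

/-- The letters of a finite word, followed by zeros. -/
def letters {b n : ℕ} (v : Fin n → Fin b) (i : ℕ) : ℕ := if h : i < n then (v ⟨i, h⟩ : ℕ) else 0

/-- The mean of the function `F` over all words of length `ℓ` with letters in `{0, …, b - 1}`. -/
noncomputable def mean {ℓ : ℕ} (b : ℕ) (F : (Fin ℓ → ℕ) → ℝ) : ℝ :=
  (∑ v : Fin ℓ → Fin b, F (fun m => (v m : ℕ))) / (b : ℝ) ^ ℓ

/-- The covariance at the distance `s`: the mean of `(F(v_0 … v_{ℓ-1}) - mean F) (F(v_s … v_{s+ℓ-1}) - mean F)` over all words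
`v_0 … v_{s+ℓ-1}` with letters in `{0, …, b - 1}`. -/
noncomputable def cov {ℓ : ℕ} (b : ℕ) (F : (Fin ℓ → ℕ) → ℝ) (s : ℕ) : ℝ :=
  (∑ v : Fin (s + ℓ) → Fin b, (F (word ℓ (letters v) 0) - mean b F) * (F (word ℓ (letters v) s) - mean b F)) /
    (b : ℝ) ^ (s + ℓ)

/-- The variance `σ_F ^ 2 = cov 0 + 2 (cov 1 + … + cov (ℓ - 1))`. -/
noncomputable def variance {ℓ : ℕ} (b : ℕ) (F : (Fin ℓ → ℕ) → ℝ) : ℝ := cov b F 0 + 2 * ∑ s ∈ Ico 1 ℓ, cov b F s

/-- The walk of the number `z`: `t ↦ (∑_{i < t N} (F(z_i, …, z_{i+ℓ-1}) - mean F)) / √N`. -/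
noncomputable def walk {ℓ : ℕ} (b : ℕ) (F : (Fin ℓ → ℕ) → ℝ) (N : ℕ) (z t : ℝ) : ℝ :=
  (∑ i ∈ range ⌊t * N⌋₊, (F (word ℓ (digit b z) i) - mean b F)) / √(N : ℝ)

/-- The families of the random multipliers `g m`, where `m` is uniformly distributed in the finite set `A`: the values of the
polynomial `P` at `M ≥ exp(ε N)` consecutive integers `J, …, J + M - 1`, and the values of `P` at the primes `p ≤ M`, where
`exp(ε N) ≤ M ≤ exp(N ^ B)`. -/
def Multipliers (P : ℤ[X]) (ε : ℝ) (B N : ℕ) (A : Finset ℕ) (g : ℕ → ℤ) : Prop :=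
  (∃ (J : ℤ) (M : ℕ), Real.exp (ε * N) ≤ M ∧ A = range M ∧ g = fun m : ℕ => P.eval (J + (m : ℤ))) ∨
    (∃ M : ℕ, Real.exp (ε * N) ≤ M ∧ (M : ℝ) ≤ Real.exp ((N : ℝ) ^ B) ∧ A = (Icc 1 M).filter Nat.Prime ∧
      g = fun m : ℕ => P.eval (m : ℤ))

/-- The test functionals: bounded, and Lipschitz for the uniform distance on `[0, 1]`. -/
def IsTest (Φ : (ℝ → ℝ) → ℝ) : Prop :=
  ∃ C L : ℝ, (∀ w, |Φ w| ≤ C) ∧
    ∀ (w w' : ℝ → ℝ) (δ : ℝ), 0 ≤ δ → (∀ t, 0 ≤ t → t ≤ 1 → |w t - w' t| ≤ δ) → |Φ w - Φ w'| ≤ L * δ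

/-- **The digits of the random multiples of an algebraic number have Brownian fluctuations.** -/
theorem result (b : ℕ) (hb : 2 ≤ b) (x : ℝ) (hx : IsAlgebraic ℚ x) (hirr : Irrational x) (P : ℤ[X]) (hP : 1 ≤ P.natDegree)
    (ε : ℝ) (hε : 0 < ε) (B ℓ : ℕ) (hℓ : 1 ≤ ℓ) :
    (∀ (F : (Fin ℓ → ℕ) → ℝ) (Ω : Type) [MeasurableSpace Ω] (μ : Measure Ω) (W : ℝ≥0 → Ω → ℝ), IsBrownianReal W μ →
      ∀ Φ : (ℝ → ℝ) → ℝ, IsTest Φ → ∀ η : ℝ, 0 < η → ∃ N₀ : ℕ, ∀ N : ℕ, N₀ ≤ N →
        ∀ (A : Finset ℕ) (g : ℕ → ℤ), Multipliers P ε B N A g → ∀ y : ℝ,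
          |(∑ m ∈ A, Φ (walk b F N (y + g m * x))) / A.card -
            ∫ ω, Φ (fun t : ℝ => √(variance b F) * W t.toNNReal ω) ∂μ| ≤ η) ∧
    (∀ w : Fin ℓ → Fin b, 0 < variance b (fun v : Fin ℓ → ℕ => if v = fun m => (w m : ℕ) then (1 : ℝ) else 0)) := by
  refine ⟨fun F Ω _ μ W hW Φ hΦ η hη => ?_, fun w => ?_⟩
  · obtain ⟨C, L, hC, hL⟩ := hΦ
    have hF : Pool.Agent.V5helper57.Win.Fun Φ C (max L 0) :=
      ⟨le_max_right _ _, hC, fun f g δ hδ h => (hL f g δ hδ h).trans (mul_le_mul_of_nonneg_right (le_max_left _ _) hδ)⟩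
    exact Pool.Agent.V5helper15.RM.block_donsker hb hx hirr (by positivity : (0 : ℝ) < ε / 2)
      (Pool.Agent.V5helper15.RM.mult_good P hP ε hε B) hℓ F hW hF hη
  · exact Pool.Agent.V5helper15.RM.vr_pos hb hℓ w

end Pool.Agent.Results.MP_f2f914_nt.RandomMultiples
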