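import Pool.Agent.V5helper54.MR.Ja
import Pool.Agent.V5helper54.MR.Inst
import Pool.Agent.V5helper54.MR.Rf

/-!
# The roots `f(n)^(1/d)` and their combinations are simultaneously normal up to
`(log n) ^ (3 / 2 - ε)` digits, for nearly all integers `n`

Let `f_j`, `j ∈ ι`, be finitely many polynomials with integral coefficients and positive leading
coefficients, `d ≥ 1` and `R ≥ 0`. Suppose that no `f_j` is the `d`-th power of a real polynomial and
that no quotient `f_i / f_j`, `i ≠ j`, is the `d`-th power of a real rational function. For an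
integer `n` consider the algebraic numbers

  `y = (u + ∑_j ∑_{l ≤ R} v_{j,l} n^l f_j(n)^(1/d)) / m`

with integers `u`, `v_{j,l}`, `m ≥ 1` which are at most `exp ((log M) ^ β)` in absolute value. Let
`2 δ + β' < 1` and `β < β'`. Then, for all but `M exp (-(log M) ^ β)` of the integers `M < n ≤ 2 M`,
ALL `r`-tuples of such numbers for which no nontrivial integral combination of the `r` forms is
constant (this holds if `1, y₁, …, y_r` are linearly independent over `ℚ`, and for instance for the
tuple of all the numbers `n^l f_j(n)^(1/d)`), have in every base `b ≤ B` all `r × k` digit matrices,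
`k ≤ w`, with the right frequency `b ^ (-k r)` in EVERY window of the places between `C log M` and
`(log M) ^ (1 + δ)`, up to `ε N + (log M) ^ β'`, where `N` is the length of the window; so windows
of length `(log M) ^ (β' + η)` are enough. (The first digits of numbers like
`(n + 1)^(1/2) - n^(1/2)` are zeros, hence the condition on the place.) The constant `C` depends only
on the `f_j`, `d` and `R`.

For `f_e = ∏_i (x + s_i)^(e_i)`, `e ∈ {0, …, d - 1}^k`, `e ≠ 0`, with distinct integers `s_i ≥ 0`,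
these are numbers of the fields `ℚ((n + s₁)^(1/d), …, (n + s_k)^(1/d))` (theorem `shifts` below).

Proof. With `v = x^(-1/d)` the function `f(x)^(1/d)` is `x^(T/d) Z(v)` with a function `Z` which is
analytic at `0` and has real algebraic Taylor coefficients (differential equation for
`G^(1/d)`). The functions `1`, `f_j(x)^(1/d)` are linearly independent over the real polynomials
(differentiate a shortest relation). So for an integral combination of the functions there is a
Puiseux coefficient at infinity which does not belong to a polynomial and is not zero; the index of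
the first one is bounded, and it is bounded below by Liouville's inequality for linear forms. It
determines the Taylor coefficients of order `j`, `2 κ ≤ j ≤ 3 κ + 1 / 2`, of the phase at `n` up to
a factor `1 + o(1)`, and Vinogradov's mean value theorem (along `n + u v`, with the double Hölder
inequality; only these coefficients are needed) gives
`∑_{M < n ≤ 2 M} e(θ ∑ a_{j,l} n^l f_j(n)^(1/d)) ≪ M exp (-(log M) ^ β)` for
`M^C ≤ |θ| ≤ exp ((log M) ^ (1 + δ))` and all nonzero integral vectors `a` with entries at most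
`exp ((log M) ^ β)`. These sums are the Fourier coefficients of the joint distribution of the digits,
and a large deviation argument gives all windows with an exceptional set which is smaller than the
inverse of the number of the tuples.
-/

set_option autoImplicit false

namespace Pool.Agent.Results.MP_f2f914_nt.RootsOfIntegers

open Polynomial Filter

/-- the word of the `k` digits in base `b` of `y` which follow the first `n` digits after the point,
read as an integer between `0` and `b ^ k - 1` -/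
noncomputable def word (b k n : ℕ) (y : ℝ) : ℕ :=
  ⌊(b : ℝ) ^ k * Int.fract ((b : ℝ) ^ n * y)⌋₊

/-- in every base `2 ≤ b ≤ B` the number of occurrences of every `r × k` digit matrix, `1 ≤ k ≤ w`
(row `j` is the word `D j` of `y j`), at the `N` places `s, …, s + N - 1`, for every window with
`S ≤ s` and `s + N ≤ L`, differs from `N / b ^ (k r)` by at most `ε N + E` -/
def NormalIn {r : ℕ} (B w : ℕ) (S L ε E : ℝ) (y : Fin r → ℝ) : Prop :=
  ∀ (b k s N : ℕ) (D : Fin r → ℕ), 2 ≤ b → b ≤ B → 1 ≤ k → k ≤ w → (∀ j, D j < b ^ k) →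
    S ≤ s → (s : ℝ) + N ≤ L →
    |(({i : ℕ | i < N ∧ ∀ j, word b k (s + i) (y j) = D j}.ncard : ℕ) : ℝ) -
      N / ((b : ℝ) ^ k) ^ r| ≤ ε * N + E

/-- the integers `u i`, `v i j`, `m i ≥ 1` are at most `V` in absolute value -/
def Small {r : ℕ} {ι : Type} (V : ℝ) (u : Fin r → ℤ) (v : Fin r → ι → ℤ) (m : Fin r → ℕ) : Prop :=
  ∀ i, |(u i : ℝ)| ≤ V ∧ (∀ j, |(v i j : ℝ)| ≤ V) ∧ 1 ≤ m i ∧ (m i : ℝ) ≤ V

/-- no nontrivial integral combination of the rows of `v` is zero -/
def IndependentRows {r : ℕ} {ι : Type} (v : Fin r → ι → ℤ) : Prop :=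
  ∀ c : Fin r → ℤ, (∀ j, ∑ i, c i * v i j = 0) → c = 0

/-- There is a constant `C` such that for all `δ, β, β' > 0` with `β < β'` and `2 δ + β' < 1`, all
`B`, `w`, `r ≥ 1`, `ε > 0` and all large `M`, for all but `M exp (-(log M) ^ β)` of the integers
`M < n ≤ 2 M`, every `r`-tuple of numbers `y_i = (u_i + ∑_j v_ij Y_j(n)) / m_i`, with integers
`u_i, v_ij, m_i ≥ 1` at most `exp ((log M) ^ β)` in absolute value and with independent rows
`(v_ij)_j`, satisfies
`NormalIn B w (C log M) ((log M) ^ (1 + δ)) ε ((log M) ^ β') y`. -/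
def NearlyAllNormal {ι : Type} [Fintype ι] (Y : ι → ℕ → ℝ) : Prop :=
  ∃ C : ℝ, ∀ δ β β' : ℝ, 0 < δ → 0 < β → β < β' → 2 * δ + β' < 1 →
    ∀ (B w r : ℕ) (ε : ℝ), 1 ≤ r → 0 < ε → ∃ M₀ : ℕ, ∀ M : ℕ, M₀ ≤ M →
      (({n : ℕ | M < n ∧ n ≤ 2 * M ∧ ¬ ∀ (u : Fin r → ℤ) (v : Fin r → ι → ℤ) (m : Fin r → ℕ),
        Small (Real.exp ((Real.log M) ^ β)) u v m → IndependentRows v →
        NormalIn B w (C * Real.log M) ((Real.log M) ^ (1 + δ)) ε ((Real.log M) ^ β')
          (fun i => (u i + ∑ j, (v i j : ℝ) * Y j n) / m i)}.ncard : ℕ) : ℝ) ≤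
        M * Real.exp (-(Real.log M) ^ β)

lemma nearly {ι : Type} [Fintype ι] {Y : ι → ℕ → ℝ} {C1 : ℕ}
    (h : Pool.Agent.V5helper54.MR.Small Y C1) : NearlyAllNormal Y := by
  classical
  refine ⟨(C1 + 1) / Real.log 2 + 1, ?_⟩
  intro δ β β' hδ hβ hββ hδβ B w r ε hr hε
  obtain ⟨M0, hM0⟩ := Pool.Agent.V5helper54.MR.jn_all h δ β β' hδ hβ hββ hδβ B w r hr ε hε
  refine ⟨M0, fun M hM => le_trans (Nat.cast_le.2 ?_) (hM0 M hM)⟩
  rw [← Set.ncard_coe_finset]
  refine Set.ncard_le_ncard ?_ (Finset.finite_toSet _)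
  rintro n ⟨hn1, hn2, hbad⟩
  rw [Finset.mem_coe, Finset.mem_filter, Finset.mem_Ioc]
  refine ⟨⟨hn1, hn2⟩, fun hcon => hbad fun u v m hsm hind => ?_⟩
  intro b k s N D hb hbB hk hkw hD hS hsN
  have h0 : Pool.Agent.V5helper54.MR.Dat (Real.exp ((Real.log M) ^ β)) v m := by
    refine ⟨fun i => (hsm i).2.2.1, fun i => (hsm i).2.2.2, fun i j => (hsm i).2.1 j, ?_⟩
    intro c hc
    by_contra h1
    push Not at h1
    exact hc (hind c h1)
  have h1 := hcon b u v m hb hbB (fun i => (hsm i).1) h0 k s N D hk hkw hD hS hsN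
  have h2 : {i : ℕ | i < N ∧ ∀ j, word b k (s + i)
        ((fun i => ((u i : ℝ) + ∑ j, (v i j : ℝ) * Y j n) / m i) j) = D j} =
      (((Finset.range N).filter
        (fun i => ∀ j, Pool.Agent.Y933.KD.wd b k (s + i)
          (((u j : ℝ) + ∑ j', (v j j' : ℝ) * Y j' n) / m j) = D j) :
          Finset ℕ) : Set ℕ) := by
    ext i
    simp only [Set.mem_ofPred_eq, Finset.coe_filter, Finset.mem_range]
    rfl
  rw [h2, Set.ncard_coe_finset]
  exact h1

/-- Let `d ≥ 1` and `R` be given, and let `f_j`, `j ∈ ι` (finite), be integral polynomials with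
positive leading coefficients, such that no `f_j` is the `d`-th power of a real polynomial and no
quotient `f_i / f_j`, `i ≠ j`, is the `d`-th power of a quotient of nonzero real polynomials. Then
`NearlyAllNormal` holds for the functions `n ^ l f_j(n) ^ (1 / d)`, `j ∈ ι`, `0 ≤ l ≤ R`. -/
theorem result (ι : Type) [Fintype ι] (d R : ℕ) (f : ι → ℤ[X]) (hd : 1 ≤ d)
    (hf : ∀ j, 0 < (f j).leadingCoeff)
    (h₁ : ∀ j, ∀ a : ℝ[X], (f j).map (Int.castRingHom ℝ) ≠ a ^ d)
    (h₂ : ∀ i j, i ≠ j → ∀ a b : ℝ[X], a ≠ 0 → b ≠ 0 →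
      a ^ d * (f i).map (Int.castRingHom ℝ) ≠ b ^ d * (f j).map (Int.castRingHom ℝ)) :
    NearlyAllNormal (fun (p : ι × Fin (R + 1)) n =>
      (n : ℝ) ^ (p.2 : ℕ) * (aeval (n : ℝ) (f p.1) : ℝ) ^ (1 / (d : ℝ))) := by
  obtain ⟨C1, h⟩ := Pool.Agent.V5helper54.MR.rf_small hd R f hf h₁ h₂
  exact nearly h

/-- The products of roots of shifted variables: let `d ≥ 1` and `R`, `k` be given and
`s_1 < … < s_k` be natural numbers. Then `NearlyAllNormal` holds for the functions
`n ^ l ∏_i (n + s_i) ^ (e_i / d)`, where `0 ≤ l ≤ R` and `e ∈ {0, …, d - 1} ^ k` is not zero. -/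
theorem shifts (d k R : ℕ) (s : Fin k → ℕ) (hd : 1 ≤ d) (hs : StrictMono s) :
    NearlyAllNormal (fun (p : {e : Fin k → Fin d // ∃ i, (e i : ℕ) ≠ 0} × Fin (R + 1)) n =>
      (n : ℝ) ^ (p.2 : ℕ) * ∏ i, ((n : ℝ) + s i) ^ (((p.1.1 i : ℕ) : ℝ) / d)) := by
  obtain ⟨C1, h⟩ := Pool.Agent.V5helper54.MR.inst_small hd k R s hs
  exact nearly h

end Pool.Agent.Results.MP_f2f914_nt.RootsOfIntegers
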